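import Mathlib

/-!
# Rational factorization of tropical polynomials

Every tropical polynomial `f (x) = max_{a ∈ A} (c_a + a · x)` with exponents in `ℕ ^ n` and real
coefficients satisfies `f ⊙ g = h` for suitable finite tropical products `g`, `h` of units (a unit is a
tropical polynomial whose regular subdivision of the Newton polytope is trivial).
-/

set_option autoImplicit false

namespace Pool.Agent.Results.MP_b8ee47_co.RationallyFactorizable

open Finset

variable {n : ℕ}

/-- the affine form `c_a + a · x` -/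
def form (c : (Fin n → ℕ) → ℝ) (x : Fin n → ℝ) (a : Fin n → ℕ) : ℝ :=
  c a + ∑ i, (a i : ℝ) * x i

/-- the tropical polynomial (as a function) with exponent set `A` and coefficients `c_a`, `a ∈ A` -/
def trop (A : Finset (Fin n → ℕ)) (hA : A.Nonempty) (c : (Fin n → ℕ) → ℝ) : (Fin n → ℝ) → ℝ :=
  fun x => A.sup' hA (form c x)

/-- an exponent vector as a real vector -/
def toReal (a : Fin n → ℕ) : Fin n → ℝ := fun i => (a i : ℝ)

/-- the Newton polytope -/
def newt (A : Finset (Fin n → ℕ)) : Set (Fin n → ℝ) := convexHull ℝ (toReal '' (A : Set (Fin n → ℕ)))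

/-- the cell of the regular subdivision dual to the point `x`: the convex hull of the exponents of the
terms that attain the maximum at `x` -/
def cell (A : Finset (Fin n → ℕ)) (hA : A.Nonempty) (c : (Fin n → ℕ) → ℝ) (x : Fin n → ℝ) :
    Set (Fin n → ℝ) :=
  convexHull ℝ (toReal '' {a | a ∈ A ∧ form c x a = trop A hA c x})

/-- a unit: a tropical polynomial whose regular subdivision has the whole Newton polytope as a cell -/
def IsUnitPoly (f : (Fin n → ℝ) → ℝ) : Prop :=
  ∃ (A : Finset (Fin n → ℕ)) (hA : A.Nonempty) (c : (Fin n → ℕ) → ℝ),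
    f = trop A hA c ∧ ∃ x, cell A hA c x = newt A

/-- total version of `trop` -/
noncomputable def T (c : (Fin n → ℕ) → ℝ) (A : Finset (Fin n → ℕ)) : (Fin n → ℝ) → ℝ :=
  fun x => if h : A.Nonempty then A.sup' h (form c x) else 0

theorem T_eq (c : (Fin n → ℕ) → ℝ) (A : Finset (Fin n → ℕ)) (hA : A.Nonempty) :
    T c A = trop A hA c := by
  funext x
  simp [T, trop, hA]

/-- if all forms take the same value at some point, the polynomial is a unit -/
theorem unit_of_point (c : (Fin n → ℕ) → ℝ) (A : Finset (Fin n → ℕ)) (hA : A.Nonempty)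
    (x : Fin n → ℝ) (t : ℝ) (h : ∀ a ∈ A, form c x a = t) : IsUnitPoly (T c A) := by
  refine ⟨A, hA, c, T_eq c A hA, x, ?_⟩
  have h1 : trop A hA c x = t := by
    apply le_antisymm
    · apply Finset.sup'_le
      intro a ha
      exact (h a ha).le
    · obtain ⟨a, ha⟩ := hA
      rw [← h a ha]
      exact Finset.le_sup' (form c x) ha
  have h2 : {a | a ∈ A ∧ form c x a = trop A hA c x} = (A : Set (Fin n → ℕ)) := by
    ext a
    constructor
    · intro h3
      exact h3.1
    · intro h3
      exact ⟨h3, by rw [h1]; exact h a h3⟩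
  rw [cell, h2, newt]

/-- the dichotomy: a common point of all forms, or an affine dependency of the exponents -/
theorem dichotomy (c : (Fin n → ℕ) → ℝ) (A : Finset (Fin n → ℕ)) :
    (∃ x t, ∀ a ∈ A, form c x a = t) ∨
    (∃ w : (Fin n → ℕ) → ℝ, (∃ a ∈ A, w a ≠ 0) ∧ ∑ a ∈ A, w a = 0 ∧
      ∃ s, ∀ x, ∑ a ∈ A, w a * form c x a = s) := by
  classical
  let M : ((Fin n → ℝ) × ℝ) →ₗ[ℝ] (A → ℝ) :=
    { toFun := fun y a => ∑ i, ((a : Fin n → ℕ) i : ℝ) * y.1 i + y.2
      map_add' := by
        intro y z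
        funext a
        simp [mul_add, Finset.sum_add_distrib]
        ring
      map_smul' := by
        intro r y
        funext a
        simp only [Prod.smul_fst, Prod.smul_snd, Pi.smul_apply, smul_eq_mul, RingHom.id_apply]
        rw [mul_add, Finset.mul_sum]
        congr 1
        exact Finset.sum_congr rfl fun i _ => by ring }
  by_cases hM : LinearMap.range M = ⊤
  · left
    obtain ⟨y, hy⟩ := LinearMap.range_eq_top.1 hM (fun a => - c a)
    refine ⟨y.1, - y.2, ?_⟩
    intro a ha
    have h1 := congrFun hy ⟨a, ha⟩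
    have h2 : ∑ i, (a i : ℝ) * y.1 i + y.2 = - c a := h1
    unfold form
    linarith
  · right
    obtain ⟨f, hf0, hf⟩ := Submodule.exists_le_ker_of_lt_top (LinearMap.range M)
      (lt_top_iff_ne_top.2 hM)
    let w : (Fin n → ℕ) → ℝ := fun a => if h : a ∈ A then f (Pi.single ⟨a, h⟩ 1) else 0
    have hw : ∀ v : A → ℝ, f v = ∑ a : A, w a * v a := by
      intro v
      have h1 : v = ∑ a : A, v a • (Pi.single a (1 : ℝ) : A → ℝ) := by
        funext b
        rw [Finset.sum_apply]
        simp [Pi.single_apply]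
      conv_lhs => rw [h1]
      rw [map_sum]
      apply Finset.sum_congr rfl
      intro a _
      rw [map_smul]
      have h2 : w a = f (Pi.single a 1) := by
        simp [w, a.2]
      rw [h2, smul_eq_mul, mul_comm]
    have hM0 : ∀ y : (Fin n → ℝ) × ℝ, ∑ a : A, w a * (∑ i, ((a : Fin n → ℕ) i : ℝ) * y.1 i + y.2) = 0 := by
      intro y
      have h1 : f (M y) = 0 := hf (LinearMap.mem_range_self M y)
      rw [hw] at h1
      exact h1
    have hsum : ∑ a ∈ A, w a = 0 := by
      have h1 := hM0 (0, 1)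
      simp only [Pi.zero_apply, mul_zero, Finset.sum_const_zero, zero_add, mul_one] at h1
      rw [← Finset.sum_coe_sort A w]
      exact h1
    refine ⟨w, ?_, hsum, ∑ a ∈ A, w a * c a, ?_⟩
    · by_contra hcon
      push Not at hcon
      apply hf0
      refine LinearMap.ext fun v => ?_
      rw [hw]
      simp only [LinearMap.zero_apply]
      apply Finset.sum_eq_zero
      intro a _
      rw [hcon a a.2, zero_mul]
    · intro x
      have h1 := hM0 (x, 0)
      simp only [add_zero] at h1
      have h2 : ∑ a ∈ A, w a * (∑ i, (a i : ℝ) * x i) = 0 := by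
        rw [← Finset.sum_coe_sort A (fun a => w a * (∑ i, (a i : ℝ) * x i))]
        exact h1
      have h3 : ∑ a ∈ A, w a * form c x a =
          ∑ a ∈ A, w a * c a + ∑ a ∈ A, w a * (∑ i, (a i : ℝ) * x i) := by
        rw [← Finset.sum_add_distrib]
        apply Finset.sum_congr rfl
        intro a _
        unfold form
        ring
      rw [h3, h2, add_zero]

/-- the Radon argument: a nonempty set `P` of exponents of which, at every point, some form is at most
some form outside `P` -/
theorem exists_P (c : (Fin n → ℕ) → ℝ) (A : Finset (Fin n → ℕ)) (w : (Fin n → ℕ) → ℝ)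
    (hw : ∃ a ∈ A, w a ≠ 0) (hsum : ∑ a ∈ A, w a = 0) (s : ℝ)
    (hs : ∀ x, ∑ a ∈ A, w a * form c x a = s) (hs0 : s ≤ 0) :
    ∃ P ⊆ A, P.Nonempty ∧ ∀ x, ∃ p ∈ P, ∃ q ∈ A \ P, form c x p ≤ form c x q := by
  classical
  have hpos : ∃ a ∈ A, 0 < w a := by
    by_contra hcon
    push Not at hcon
    obtain ⟨a, ha, hwa⟩ := hw
    have h1 := (Finset.sum_eq_zero_iff_of_nonpos hcon).1 hsum a ha
    exact hwa h1
  have hneg : ∃ a ∈ A, w a < 0 := by
    by_contra hcon
    push Not at hcon
    obtain ⟨a, ha, hwa⟩ := hw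
    have h1 := (Finset.sum_eq_zero_iff_of_nonneg hcon).1 hsum a ha
    exact hwa h1
  refine ⟨A.filter (fun a => 0 < w a), Finset.filter_subset _ _, ?_, ?_⟩
  · obtain ⟨a, ha, hwa⟩ := hpos
    exact ⟨a, Finset.mem_filter.2 ⟨ha, hwa⟩⟩
  · intro x
    by_contra hcon
    push Not at hcon
    obtain ⟨p0, hp0, hwp0⟩ := hpos
    have hP : (A.filter (fun a => 0 < w a)).Nonempty := ⟨p0, Finset.mem_filter.2 ⟨hp0, hwp0⟩⟩
    obtain ⟨p, hp, hpm⟩ := Finset.exists_min_image (A.filter (fun a => 0 < w a)) (form c x) hP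
    have h1 : ∑ a ∈ A, w a * (form c x a - form c x p) = s := by
      simp only [mul_sub]
      rw [Finset.sum_sub_distrib, ← Finset.sum_mul, hsum, zero_mul, sub_zero, hs x]
    have h2 : 0 < ∑ a ∈ A, w a * (form c x a - form c x p) := by
      apply Finset.sum_pos'
      · intro a ha
        by_cases hwa : 0 < w a
        · exact mul_nonneg hwa.le (sub_nonneg.2 (hpm a (Finset.mem_filter.2 ⟨ha, hwa⟩)))
        · have h3 : a ∈ A \ A.filter (fun a => 0 < w a) :=
            Finset.mem_sdiff.2 ⟨ha, fun h => hwa (Finset.mem_filter.1 h).2⟩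
          exact mul_nonneg_of_nonpos_of_nonpos (not_lt.1 hwa) (sub_nonpos.2 (hcon p hp a h3).le)
      · obtain ⟨a, ha, hwa⟩ := hneg
        refine ⟨a, ha, ?_⟩
        have h3 : a ∈ A \ A.filter (fun a => 0 < w a) :=
          Finset.mem_sdiff.2 ⟨ha, fun h => absurd (Finset.mem_filter.1 h).2 (not_lt.2 hwa.le)⟩
        exact mul_pos_of_neg_of_neg hwa (sub_neg.2 (hcon p hp a h3))
    linarith

/-- removing a dominated form does not change the maximum -/
theorem T_remove (c : (Fin n → ℕ) → ℝ) (B : Finset (Fin n → ℕ)) (p q : Fin n → ℕ)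
    (x : Fin n → ℝ) (hq : q ∈ B) (h : form c x p ≤ form c x q) :
    T c (insert p B) x = T c B x := by
  classical
  have hB : B.Nonempty := ⟨q, hq⟩
  rw [T_eq c B hB, T_eq c (insert p B) (Finset.insert_nonempty p B)]
  unfold trop
  rw [Finset.sup'_insert]
  exact max_eq_right (h.trans (Finset.le_sup' (form c x) hq))

/-- the alternating sum over the subsets of `P` vanishes -/
theorem alternating (c : (Fin n → ℕ) → ℝ) (A P : Finset (Fin n → ℕ)) (hPA : P ⊆ A)
    (x : Fin n → ℝ) (p q : Fin n → ℕ) (hp : p ∈ P) (hq : q ∈ A \ P)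
    (h : form c x p ≤ form c x q) :
    ∑ S ∈ P.powerset, (-1 : ℤ) ^ S.card • T c (A \ S) x = 0 := by
  classical
  obtain ⟨hqA, hqP⟩ := Finset.mem_sdiff.1 hq
  have hP : P = insert p (P.erase p) := (Finset.insert_erase hp).symm
  rw [hP, Finset.sum_powerset_insert (Finset.notMem_erase p P), ← Finset.sum_add_distrib]
  apply Finset.sum_eq_zero
  intro S hS
  have hS' : S ⊆ P.erase p := Finset.mem_powerset.1 hS
  have hpS : p ∉ S := fun h1 => Finset.notMem_erase p P (hS' h1)
  have hSP : S ⊆ P := hS'.trans (Finset.erase_subset p P)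
  have h1 : A \ S = insert p (A \ insert p S) := by
    ext a
    simp only [Finset.mem_sdiff, Finset.mem_insert]
    constructor
    · rintro ⟨h2, h3⟩
      by_cases h4 : a = p
      · exact Or.inl h4
      · exact Or.inr ⟨h2, fun h5 => h5.elim h4 h3⟩
    · rintro (h2 | ⟨h2, h3⟩)
      · rw [h2]
        exact ⟨hPA hp, hpS⟩
      · exact ⟨h2, fun h4 => h3 (Or.inr h4)⟩
  have hqB : q ∈ A \ insert p S := by
    refine Finset.mem_sdiff.2 ⟨hqA, fun h2 => ?_⟩
    rcases Finset.mem_insert.1 h2 with h3 | h3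
    · exact hqP (h3 ▸ hp)
    · exact hqP (hSP h3)
  rw [h1, T_remove c _ p q x hqB h, Finset.card_insert_of_notMem hpS, pow_succ]
  simp

/-- every tropical polynomial lies in the group generated by the units -/
theorem mem_closure (c : (Fin n → ℕ) → ℝ) (k : ℕ) : ∀ A : Finset (Fin n → ℕ), A.card = k →
    A.Nonempty → T c A ∈ AddSubgroup.closure {f : (Fin n → ℝ) → ℝ | IsUnitPoly f} := by
  classical
  induction k using Nat.strong_induction_on with
  | _ k ih =>
    intro A hk hA
    rcases dichotomy c A with ⟨x, t, h⟩ | ⟨w, hw, hsum, s, hs⟩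
    · exact AddSubgroup.subset_closure (unit_of_point c A hA x t h)
    · have hP : ∃ P ⊆ A, P.Nonempty ∧ ∀ x, ∃ p ∈ P, ∃ q ∈ A \ P, form c x p ≤ form c x q := by
        rcases le_total s 0 with hs0 | hs0
        · exact exists_P c A w hw hsum s hs hs0
        · refine exists_P c A (fun a => - w a) ?_ ?_ (-s) ?_ (by linarith)
          · obtain ⟨a, ha, h⟩ := hw
            exact ⟨a, ha, neg_ne_zero.2 h⟩
          · rw [Finset.sum_neg_distrib, hsum, neg_zero]
          · intro x
            simp only [neg_mul]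
            rw [Finset.sum_neg_distrib, hs x]
      obtain ⟨P, hPA, hPne, hP⟩ := hP
      have hdiff : (A \ P).Nonempty := by
        obtain ⟨p, _, q, hq, _⟩ := hP 0
        exact ⟨q, hq⟩
      have h0 : ∑ S ∈ P.powerset, (-1 : ℤ) ^ S.card • T c (A \ S) = 0 := by
        funext x
        obtain ⟨p, hp, q, hq, h⟩ := hP x
        rw [Finset.sum_apply]
        exact alternating c A P hPA x p q hp hq h
      rw [← Finset.add_sum_erase _ _ (Finset.empty_mem_powerset P)] at h0
      simp only [Finset.card_empty, pow_zero, one_smul, Finset.sdiff_empty] at h0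
      rw [eq_neg_of_add_eq_zero_left h0]
      apply AddSubgroup.neg_mem
      apply AddSubgroup.sum_mem
      intro S hS
      obtain ⟨hS1, hS2⟩ := Finset.mem_erase.1 hS
      have hSP : S ⊆ P := Finset.mem_powerset.1 hS2
      apply AddSubgroup.zsmul_mem
      refine ih (A \ S).card ?_ (A \ S) rfl ?_
      · rw [← hk]
        apply Finset.card_lt_card
        refine Finset.sdiff_ssubset (hSP.trans hPA) (Finset.nonempty_iff_ne_empty.2 hS1)
      · exact hdiff.mono (Finset.sdiff_subset_sdiff (Finset.Subset.refl A) hSP)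

theorem zero_unit : IsUnitPoly (0 : (Fin n → ℝ) → ℝ) := by
  have h := unit_of_point (fun _ => 0) ({0} : Finset (Fin n → ℕ)) (Finset.singleton_nonempty 0) 0 0
    (by intro a _; simp [form])
  have h2 : T (fun _ => 0) ({0} : Finset (Fin n → ℕ)) = 0 := by
    rw [T_eq _ _ (Finset.singleton_nonempty 0)]
    funext x
    simp [trop, form]
  rw [h2] at h
  exact h

theorem extract (f : (Fin n → ℝ) → ℝ)
    (hf : f ∈ AddSubgroup.closure {f : (Fin n → ℝ) → ℝ | IsUnitPoly f}) :
    ∃ G H : List ((Fin n → ℝ) → ℝ), (∀ g ∈ G, IsUnitPoly g) ∧ (∀ h ∈ H, IsUnitPoly h) ∧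
      f + G.sum = H.sum := by
  induction hf using AddSubgroup.closure_induction with
  | mem x hx => exact ⟨[], [x], by simp, by simpa using hx, by simp⟩
  | zero => exact ⟨[], [], by simp, by simp, by simp⟩
  | add x y _ _ hx hy =>
    obtain ⟨G, H, h1, h2, h3⟩ := hx
    obtain ⟨G', H', h1', h2', h3'⟩ := hy
    refine ⟨G ++ G', H ++ H', ?_, ?_, ?_⟩
    · intro g hg
      rcases List.mem_append.1 hg with h | h
      · exact h1 g h
      · exact h1' g h
    · intro g hg
      rcases List.mem_append.1 hg with h | h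
      · exact h2 g h
      · exact h2' g h
    · rw [List.sum_append, List.sum_append, ← h3, ← h3']
      abel
  | neg x _ hx =>
    obtain ⟨G, H, h1, h2, h3⟩ := hx
    refine ⟨H, G, h2, h1, ?_⟩
    rw [← h3]
    abel

/-- Every tropical polynomial is rationally factorizable. -/
theorem result (n : ℕ) (A : Finset (Fin n → ℕ)) (hA : A.Nonempty) (c : (Fin n → ℕ) → ℝ) :
    ∃ G H : List ((Fin n → ℝ) → ℝ), G ≠ [] ∧ H ≠ [] ∧
      (∀ g ∈ G, IsUnitPoly g) ∧ (∀ h ∈ H, IsUnitPoly h) ∧ trop A hA c + G.sum = H.sum := by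
  obtain ⟨G, H, h1, h2, h3⟩ := extract _ (mem_closure c A.card A rfl hA)
  refine ⟨0 :: G, 0 :: H, by simp, by simp, ?_, ?_, ?_⟩
  · intro g hg
    rcases List.mem_cons.1 hg with h | h
    · rw [h]
      exact zero_unit
    · exact h1 g h
  · intro g hg
    rcases List.mem_cons.1 hg with h | h
    · rw [h]
      exact zero_unit
    · exact h2 g h
  · rw [List.sum_cons, List.sum_cons, zero_add, zero_add, ← T_eq c A hA]
    exact h3

end Pool.Agent.Results.MP_b8ee47_co.RationallyFactorizable
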